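import Pool.Agent.Q30.HP.Area3

set_option autoImplicit false

/-!
MP_8fded1_nt. A value `|U z| ≥ 1` of a Hecke-Maass cusp form at a point of a compact set is attained, up to a constant
factor, on a set of area at least `c T ^ (-2 - δ)` of every band `a ≤ Im z ≤ 4 a`. The sup norm conjecture is equivalent
to an area bound for the set of large values in one such band.
-/

open MeasureTheory Filter Topology
open scoped ENNReal

namespace Pool.Agent.Results.MP_8fded1_nt.LargeValueArea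

/-- `U` is a Hecke-Maass cusp form for `SL(2, ℤ)` with the eigenvalue `1/4 + T²`, `T ≥ 1`, and with
`∫ |U|² = 1` over the fundamental domain. -/
structure HeckeMaass (U : ℂ → ℂ) (T : ℝ) : Prop where
  one_le : 1 ≤ T
  smooth : ContDiffOn ℝ 2 U {z : ℂ | 0 < z.im}
  invariant : ∀ z : ℂ, 0 < z.im → U (z + 1) = U z ∧ U (-z⁻¹) = U z
  eigen : ∀ z : ℂ, 0 < z.im →
    -((z.im : ℂ)) ^ 2 *
      (deriv (deriv (fun t : ℝ => U (z + (t : ℂ)))) 0 +
        deriv (deriv (fun t : ℝ => U (z + (t : ℂ) * Complex.I))) 0)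
      = (1 / 4 + (T : ℂ) ^ 2) * U z
  cuspidal : ∀ y : ℝ, 0 < y →
    intervalIntegral (fun x : ℝ => U ((x : ℂ) + (y : ℂ) * Complex.I)) 0 1 volume = 0
  normalised : (∫ z in {z : ℂ | 0 < z.im ∧ |z.re| ≤ 1 / 2 ∧ 1 ≤ ‖z‖}, ‖U z‖ ^ 2 / z.im ^ 2) = 1
  hecke : ∀ n : ℕ, 1 ≤ n → ∃ c : ℂ, ∀ z : ℂ, 0 < z.im →
    ∑ d ∈ n.divisors, ∑ b ∈ Finset.range d,
      U ((((n / d : ℕ) : ℂ) * z + (b : ℂ)) / (d : ℂ)) = c * U z

/-- the sup norm conjecture (Q1) -/
def SupNorm : Prop := ∀ K : Set ℂ, IsCompact K → K ⊆ {z : ℂ | 0 < z.im} → ∀ ε : ℝ, 0 < ε →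
  ∃ C : ℝ, ∀ (U : ℂ → ℂ) (T : ℝ), HeckeMaass U T → ∀ z ∈ K, ‖U z‖ ≤ C * T ^ ε

/-- the band `|Re z| ≤ 1/2`, `a ≤ Im z ≤ 4 a`, of hyperbolic area `3 / (4 a)` -/
def band (a : ℝ) : Set ℂ := {z : ℂ | |z.re| ≤ 1 / 2 ∧ a ≤ z.im ∧ z.im ≤ 4 * a}

/-- the hyperbolic area of a subset of the upper half plane -/
noncomputable def area (E : Set ℂ) : ℝ≥0∞ := ∫⁻ z in E, ENNReal.ofReal (1 / z.im ^ 2)

/-- for every `ε > 0` there is `δ > 0` such that the set of the points of the band where `|U| ≥ T ^ ε` has the area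
`O(T ^ (-2 - δ))` -/
def AreaSmall (a : ℝ) : Prop := ∀ ε : ℝ, 0 < ε → ∃ δ : ℝ, 0 < δ ∧ ∃ C : ℝ, ∀ (U : ℂ → ℂ) (T : ℝ), HeckeMaass U T →
  area (band a ∩ {z | T ^ ε ≤ ‖U z‖}) ≤ ENNReal.ofReal (C * T ^ (-2 - δ))

/-- all moments over the band are `O(T ^ ε)` -/
def MomentsSmall (a : ℝ) : Prop := ∀ (q : ℕ) (ε : ℝ), 0 < ε → ∃ C : ℝ, ∀ (U : ℂ → ℂ) (T : ℝ), HeckeMaass U T →
  (∫ z in band a, ‖U z‖ ^ q / z.im ^ 2) ≤ C * T ^ ε

/-- the rectangle `|Re z| ≤ 1`, `1/4 ≤ Im z ≤ Y` -/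
def box (Y : ℝ) : Set ℂ := {z : ℂ | |z.re| ≤ 1 ∧ 1 / 4 ≤ z.im ∧ z.im ≤ Y}

/-- for every `ε > 0` there are arbitrarily small `θ > 0` such that the set of the points below the height `T ^ θ` where
`|U| ≥ T ^ ε` has an area at most `T ^ (-2 + κ θ)` for large `T` -/
def AreaSparse (κ : ℝ) : Prop := ∀ ε : ℝ, 0 < ε → ∃ θ : ℝ, 0 < θ ∧ θ ≤ ε ∧ ∃ T₀ : ℝ, ∀ (U : ℂ → ℂ) (T : ℝ),
  HeckeMaass U T → T₀ ≤ T → area (box (T ^ θ) ∩ {z | T ^ ε ≤ ‖U z‖}) ≤ ENNReal.ofReal (T ^ (-2 + κ * θ))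

open Pool.Agent.Q30.HP UpperHalfPlane

lemma HeckeMaass.form {U : ℂ → ℂ} {T : ℝ} (h : HeckeMaass U T) : Form U T where
  one_le := h.one_le
  smooth := h.smooth
  inv := h.invariant
  eigen := fun z hz => h.eigen z hz
  mass := h.normalised
  hecke := h.hecke

lemma band_sub {a : ℝ} (ha : 0 < a) : band a ⊆ {z : ℂ | 0 < z.im} := fun _ hz => lt_of_lt_of_le ha hz.2.1

lemma band_compact (a : ℝ) : IsCompact (band a) := by
  have : band a = (Set.Icc (-(1 / 2)) (1 / 2) ×ℂ Set.Icc a (4 * a)) := by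
    ext z
    simp [band, Complex.mem_reProdIm, abs_le]
  rw [this]
  exact isCompact_Icc.reProdIm isCompact_Icc

lemma image_pre {K : Set ℂ} (hK : K ⊆ {z : ℂ | 0 < z.im}) :
    UpperHalfPlane.coe '' (UpperHalfPlane.coe ⁻¹' K) = K := by
  rw [Set.image_preimage_eq_iff]
  intro z hz
  exact ⟨⟨z, hK hz⟩, rfl⟩

lemma area_eq {E : Set ℂ} (hE : E ⊆ {z : ℂ | 0 < z.im}) (hm : MeasurableSet (UpperHalfPlane.coe ⁻¹' E)) :
    area E = volume (UpperHalfPlane.coe ⁻¹' E) := by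
  have h := lint_gen (f := fun _ => 1) measurable_const hm
  rw [image_pre hE] at h
  unfold area
  simpa using h.symm

lemma compact_box (K : Set ℂ) (hK : IsCompact K) (hKs : K ⊆ {z : ℂ | 0 < z.im}) :
    ∃ M : ℝ, 1 ≤ M ∧ ∀ z ∈ K, |z.re| ≤ M ∧ 1 / M ≤ z.im ∧ z.im ≤ M := by
  rcases K.eq_empty_or_nonempty with rfl | hne
  · exact ⟨1, le_refl _, by simp⟩
  · obtain ⟨R, hR⟩ := hK.isBounded.exists_norm_le
    obtain ⟨w, hw, hmin⟩ := hK.exists_isMinOn hne Complex.continuous_im.continuousOn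
    have hw0 : 0 < w.im := hKs hw
    have hRm : R ≤ max 1 (max R (1 / w.im)) := (le_max_left _ _).trans (le_max_right _ _)
    refine ⟨max 1 (max R (1 / w.im)), le_max_left _ _, fun z hz => ⟨?_, ?_, ?_⟩⟩
    · exact (Complex.abs_re_le_norm z).trans ((hR z hz).trans hRm)
    · have h1 : w.im ≤ z.im := hmin hz
      have h2 : 1 / w.im ≤ max 1 (max R (1 / w.im)) := (le_max_right _ _).trans (le_max_right _ _)
      refine le_trans ?_ h1
      rw [div_le_iff₀ (lt_of_lt_of_le one_pos (le_max_left _ _))]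
      rw [div_le_iff₀ hw0] at h2
      linarith
    · exact (Complex.im_le_norm z).trans ((hR z hz).trans hRm)

lemma int_one {a : ℝ} (ha : 0 < a) : IntegrableOn (fun z : ℂ => 1 / z.im ^ 2) (band a) := by
  have hc : ContinuousOn (fun z : ℂ => 1 / z.im ^ 2) (band a) := by
    apply ContinuousOn.div continuousOn_const (Complex.continuous_im.pow 2).continuousOn
    intro z hz
    have h0 : 0 < z.im := band_sub ha hz
    exact (pow_pos h0 2).ne'
  exact hc.integrableOn_compact (band_compact a)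

theorem gap (a : ℝ) (ha : 0 < a) (δ : ℝ) (hδ : 0 < δ) (K : Set ℂ) (hK : IsCompact K) (hKs : K ⊆ {z : ℂ | 0 < z.im}) :
    ∃ c : ℝ, 0 < c ∧ ∀ (U : ℂ → ℂ) (T : ℝ), HeckeMaass U T → ∀ z ∈ K, 1 ≤ ‖U z‖ →
      ENNReal.ofReal (c * T ^ (-2 - δ)) ≤ area (band a ∩ {w | c * ‖U z‖ < ‖U w‖}) := by
  obtain ⟨M, hM, hMK⟩ := compact_box K hK hKs
  obtain ⟨c, hc, H⟩ := area_band ha hM hδ
  refine ⟨c, hc, fun U T hU z hz h1 => ?_⟩
  obtain ⟨m1, m2, m3⟩ := hMK z hz
  have hm : Measurable fun τ : ℍ => ‖U τ‖ :=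
    (hU.smooth.continuousOn.comp_continuous (by fun_prop) fun τ : ℍ => τ.im_pos).measurable.norm
  have hEm : MeasurableSet (UpperHalfPlane.coe ⁻¹' (band a)) := measurable_coe (band_compact a).isClosed.measurableSet
  have hset : MeasurableSet {τ : ℍ | c * ‖U z‖ < ‖U τ‖} := measurableSet_lt measurable_const hm
  have hset2 : MeasurableSet (UpperHalfPlane.coe ⁻¹' (band a ∩ {w | c * ‖U z‖ < ‖U w‖})) := hEm.inter hset
  rw [area_eq (Set.inter_subset_left.trans (band_sub ha)) hset2]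
  exact H U T hU.form z m1 m2 m3 h1

lemma bounded {U : ℂ → ℂ} {T : ℝ} (h : HeckeMaass U T) {M : ℝ} (hM : 1 ≤ M) {z : ℂ} (h1 : 1 / M ≤ z.im)
    (h2 : z.im ≤ M) : ‖U z‖ ≤ 600 * T * M := by
  have hM0 : 0 < M := by linarith
  have hz : 0 < z.im := lt_of_lt_of_le (by positivity) h1
  have hT := h.one_le
  refine (h.form.le hz).trans ?_
  have : max 1 (max z.im (1 / z.im)) ≤ M := by
    apply max_le hM
    apply max_le h2
    rw [div_le_iff₀ hz]
    rw [div_le_iff₀ hM0] at h1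
    linarith
  gcongr

theorem sup_of_area {a : ℝ} (ha : 0 < a) (hA : AreaSmall a) : SupNorm := by
  intro K hK hKs ε hε
  obtain ⟨M, hM, hMK⟩ := compact_box K hK hKs
  obtain ⟨δ, hδ, C1, hC1⟩ := hA (ε / 2) (by positivity)
  obtain ⟨c, hc, H⟩ := gap a ha (δ / 2) (by positivity) K hK hKs
  have ev1 : ∀ᶠ T : ℝ in atTop, 1 / c ≤ T ^ (ε / 2) :=
    (tendsto_rpow_atTop (by positivity)).eventually_ge_atTop _
  have ev2 : ∀ᶠ T : ℝ in atTop, C1 / c < T ^ (δ / 2) :=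
    (tendsto_rpow_atTop (by positivity)).eventually_gt_atTop _
  obtain ⟨T₁, hT₁⟩ := eventually_atTop.1 (ev1.and ev2)
  refine ⟨max 1 (600 * max T₁ 1 * M), fun U T hU z hz => ?_⟩
  obtain ⟨m1, m2, m3⟩ := hMK z hz
  have hT1 := hU.one_le
  have hTpos : 0 < T := by linarith
  have hTε : 1 ≤ T ^ ε := Real.one_le_rpow hT1 hε.le
  rcases lt_or_ge T T₁ with hlt | hge
  · calc ‖U z‖ ≤ 600 * T * M := bounded hU hM m2 m3
      _ ≤ 600 * max T₁ 1 * M := by
          have : T ≤ max T₁ 1 := hlt.le.trans (le_max_left _ _)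
          gcongr
      _ ≤ max 1 (600 * max T₁ 1 * M) := le_max_right _ _
      _ ≤ max 1 (600 * max T₁ 1 * M) * T ^ ε := by
          have : 0 ≤ max 1 (600 * max T₁ 1 * M) := le_trans zero_le_one (le_max_left _ _)
          nlinarith
  · suffices hsuf : ‖U z‖ ≤ T ^ ε by
      have : 1 ≤ max 1 (600 * max T₁ 1 * M) := le_max_left _ _
      nlinarith
    by_contra hcon
    push Not at hcon
    obtain ⟨e1, e2⟩ := hT₁ T hge
    have h1 := H U T hU z hz (hTε.trans hcon.le)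
    have h2 : area (band a ∩ {w | c * ‖U z‖ < ‖U w‖}) ≤ area (band a ∩ {w | T ^ (ε / 2) ≤ ‖U w‖}) := by
      apply lintegral_mono_set
      rintro w ⟨q1, q2⟩
      refine ⟨q1, ?_⟩
      have q2' : c * ‖U z‖ < ‖U w‖ := q2
      show T ^ (ε / 2) ≤ ‖U w‖
      have h3 : T ^ ε = T ^ (ε / 2) * T ^ (ε / 2) := by rw [← Real.rpow_add hTpos]; ring_nf
      have h4 : 0 < T ^ (ε / 2) := by positivity
      rw [div_le_iff₀ hc] at e1
      have h5 : T ^ (ε / 2) ≤ c * T ^ ε := by rw [h3]; nlinarith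
      have h6 : c * T ^ ε ≤ c * ‖U z‖ := by gcongr
      linarith
    have h3 := h1.trans (h2.trans (hC1 U T hU))
    have hp : 0 < T ^ (-2 - δ) := by positivity
    have e3 : T ^ (-2 - δ / 2) = T ^ (-2 - δ) * T ^ (δ / 2) := by rw [← Real.rpow_add hTpos]; ring_nf
    have hpos : 0 < c * T ^ (-2 - δ / 2) := by positivity
    have hC1pos : 0 < C1 * T ^ (-2 - δ) := by
      by_contra hneg
      push Not at hneg
      rw [ENNReal.ofReal_of_nonpos hneg, nonpos_iff_eq_zero, ENNReal.ofReal_eq_zero] at h3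
      linarith
    have h4 := (ENNReal.ofReal_le_ofReal_iff hC1pos.le).1 h3
    rw [e3] at h4
    rw [div_lt_iff₀ hc] at e2
    nlinarith

theorem area_of_sup {a : ℝ} (ha : 0 < a) (hS : SupNorm) : AreaSmall a := by
  intro ε hε
  obtain ⟨C0, hC0⟩ := hS (band a) (band_compact a) (band_sub ha) (ε / 2) (by positivity)
  have ev1 : ∀ᶠ T : ℝ in atTop, C0 < T ^ (ε / 2) := (tendsto_rpow_atTop (by positivity)).eventually_gt_atTop _
  obtain ⟨T₁, hT₁⟩ := eventually_atTop.1 ev1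
  have hfin : area (band a) ≠ ⊤ := by
    have hEm : MeasurableSet (UpperHalfPlane.coe ⁻¹' (band a)) := measurable_coe (band_compact a).isClosed.measurableSet
    have hint := int_one ha
    unfold area
    rw [← ofReal_integral_eq_lintegral_ofReal hint (Filter.Eventually.of_forall fun z => by positivity)]
    exact ENNReal.ofReal_ne_top
  set A0 : ℝ := (area (band a)).toReal with hA0
  have hA0' : area (band a) = ENNReal.ofReal A0 := (ENNReal.ofReal_toReal hfin).symm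
  refine ⟨1, one_pos, A0 * max T₁ 1 ^ (3 : ℕ), fun U T hU => ?_⟩
  have hT1 := hU.one_le
  have hTpos : 0 < T := by linarith
  rcases lt_or_ge T T₁ with hlt | hge
  · refine (lintegral_mono_set Set.inter_subset_left).trans ?_
    show area (band a) ≤ _
    rw [hA0']
    apply ENNReal.ofReal_le_ofReal
    have e : T ^ (-2 - (1 : ℝ)) = (T ^ (3 : ℕ))⁻¹ := by
      rw [← Real.rpow_natCast, ← Real.rpow_neg hTpos.le]
      norm_num
    rw [e, mul_assoc]
    have h1 : T ^ (3 : ℕ) ≤ max T₁ 1 ^ (3 : ℕ) := by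
      have : T ≤ max T₁ 1 := hlt.le.trans (le_max_left _ _)
      gcongr
    have h2 : 1 ≤ max T₁ 1 ^ (3 : ℕ) * (T ^ (3 : ℕ))⁻¹ := by
      rw [← div_eq_mul_inv, one_le_div (by positivity)]
      exact h1
    have h3 : 0 ≤ A0 := ENNReal.toReal_nonneg
    nlinarith
  · have he : band a ∩ {z | T ^ ε ≤ ‖U z‖} = ∅ := by
      rw [Set.eq_empty_iff_forall_notMem]
      rintro z ⟨q1, q2⟩
      have q2' : T ^ ε ≤ ‖U z‖ := q2
      have h1 := hC0 U T hU z q1
      have h2 := hT₁ T hge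
      have h3 : T ^ ε = T ^ (ε / 2) * T ^ (ε / 2) := by rw [← Real.rpow_add hTpos]; ring_nf
      have h4 : 0 < T ^ (ε / 2) := by positivity
      nlinarith
    rw [he]
    unfold area
    rw [Measure.restrict_empty, lintegral_zero_measure]
    exact zero_le

lemma cont_q {U : ℂ → ℂ} {T : ℝ} (h : HeckeMaass U T) {a : ℝ} (ha : 0 < a) (q : ℕ) :
    ContinuousOn (fun z : ℂ => ‖U z‖ ^ q / z.im ^ 2) (band a) := by
  apply ContinuousOn.div
  · exact ((h.smooth.continuousOn.mono (band_sub ha)).norm).pow q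
  · exact (Complex.continuous_im.pow 2).continuousOn
  · intro z hz
    have : (0 : ℝ) < z.im := band_sub ha hz
    positivity

theorem moments_of_sup {a : ℝ} (ha : 0 < a) (hS : SupNorm) : MomentsSmall a := by
  intro q ε hε
  obtain ⟨C0, hC0⟩ := hS (band a) (band_compact a) (band_sub ha) (ε / (q + 1)) (by positivity)
  refine ⟨max C0 0 ^ q * ∫ z in band a, 1 / z.im ^ 2, fun U T hU => ?_⟩
  have hT1 := hU.one_le
  have hTpos : 0 < T := by linarith
  have hint := int_one ha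
  have h1 : (∫ z in band a, ‖U z‖ ^ q / z.im ^ 2) ≤ ∫ z in band a, (max C0 0 ^ q * T ^ ε) * (1 / z.im ^ 2) := by
    have hintq : IntegrableOn (fun z : ℂ => ‖U z‖ ^ q / z.im ^ 2) (band a) :=
      (cont_q hU ha q).integrableOn_compact (band_compact a)
    apply setIntegral_mono_on hintq (hint.const_mul _)
      (band_compact a).isClosed.measurableSet
    intro z hz
    have hz0 : 0 < z.im := band_sub ha hz
    rw [mul_one_div]
    have h2 : ‖U z‖ ≤ max C0 0 * T ^ (ε / (q + 1)) := (hC0 U T hU z hz).trans (by gcongr; exact le_max_left _ _)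
    have h3 : ‖U z‖ ^ q ≤ max C0 0 ^ q * T ^ ε := by
      calc ‖U z‖ ^ q ≤ (max C0 0 * T ^ (ε / (q + 1))) ^ q := by gcongr
        _ = max C0 0 ^ q * T ^ (ε / (q + 1) * q) := by
            rw [mul_pow, ← Real.rpow_natCast (T ^ (ε / (q + 1))) q, ← Real.rpow_mul hTpos.le]
        _ ≤ max C0 0 ^ q * T ^ ε := by
            have : 0 ≤ max C0 0 := le_max_right _ _
            gcongr
            rw [div_mul_eq_mul_div, div_le_iff₀ (by positivity)]
            nlinarith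
    gcongr
  refine h1.trans (le_of_eq ?_)
  rw [integral_const_mul]
  ring

theorem area_of_moments {a : ℝ} (ha : 0 < a) (hM : MomentsSmall a) : AreaSmall a := by
  intro ε hε
  set q : ℕ := ⌈4 / ε⌉₊ with hq
  have hq1 : 4 ≤ ε * q := by
    have := Nat.le_ceil (4 / ε)
    rw [div_le_iff₀ hε] at this
    linarith
  obtain ⟨C, hC⟩ := hM q 1 one_pos
  refine ⟨1, one_pos, max C 0, fun U T hU => ?_⟩
  have hT1 := hU.one_le
  have hTpos : 0 < T := by linarith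
  have hcl : IsClosed (band a ∩ {z | T ^ ε ≤ ‖U z‖}) :=
    ((hU.smooth.continuousOn.mono (band_sub ha)).norm).preimage_isClosed_of_isClosed (band_compact a).isClosed
      isClosed_Ici
  have hint : IntegrableOn (fun z : ℂ => ‖U z‖ ^ q / z.im ^ 2) (band a) :=
    (cont_q hU ha q).integrableOn_compact (band_compact a)
  have hTq : 0 < T ^ (ε * q) := by positivity
  calc area (band a ∩ {z | T ^ ε ≤ ‖U z‖})
      ≤ ∫⁻ z in band a ∩ {z | T ^ ε ≤ ‖U z‖}, ENNReal.ofReal (T ^ (-(ε * q))) * ENNReal.ofReal (‖U z‖ ^ q / z.im ^ 2) := by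
        apply setLIntegral_mono' hcl.measurableSet
        rintro z ⟨q1, q2⟩
        have q2' : T ^ ε ≤ ‖U z‖ := q2
        have hz0 : 0 < z.im := band_sub ha q1
        rw [← ENNReal.ofReal_mul (by positivity)]
        apply ENNReal.ofReal_le_ofReal
        have h1 : T ^ (ε * q) ≤ ‖U z‖ ^ q := by
          rw [Real.rpow_mul hTpos.le, Real.rpow_natCast]
          gcongr
        rw [Real.rpow_neg hTpos.le, ← mul_div_assoc]
        apply div_le_div_of_nonneg_right _ (by positivity)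
        rw [inv_mul_eq_div, le_div_iff₀ hTq, one_mul]
        exact h1
    _ ≤ ∫⁻ z in band a, ENNReal.ofReal (T ^ (-(ε * q))) * ENNReal.ofReal (‖U z‖ ^ q / z.im ^ 2) :=
        lintegral_mono_set Set.inter_subset_left
    _ = ENNReal.ofReal (T ^ (-(ε * q))) * ENNReal.ofReal (∫ z in band a, ‖U z‖ ^ q / z.im ^ 2) := by
        rw [lintegral_const_mul' _ _ ENNReal.ofReal_ne_top,
          ofReal_integral_eq_lintegral_ofReal hint (Filter.Eventually.of_forall fun z => by positivity)]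
    _ ≤ ENNReal.ofReal (T ^ (-(ε * q))) * ENNReal.ofReal (max C 0 * T ^ (1 : ℝ)) := by
        gcongr
        refine (hC U T hU).trans ?_
        gcongr
        exact le_max_left _ _
    _ ≤ ENNReal.ofReal (max C 0 * T ^ (-2 - (1 : ℝ))) := by
        rw [← ENNReal.ofReal_mul (by positivity)]
        apply ENNReal.ofReal_le_ofReal
        have e : T ^ (-(ε * q)) * (max C 0 * T ^ (1 : ℝ)) = max C 0 * T ^ (-(ε * q) + 1) := by
          rw [Real.rpow_add hTpos]; ring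
        rw [e]
        have : 0 ≤ max C 0 := le_max_right _ _
        gcongr
        linarith

lemma box_sub (Y : ℝ) : box Y ⊆ {z : ℂ | 0 < z.im} := fun z hz => by
  have h1 : 1 / 4 ≤ z.im := hz.2.1
  show 0 < z.im
  linarith

lemma box_compact' (Y : ℝ) : IsCompact (box Y) := by
  have : box Y = (Set.Icc (-1) 1 ×ℂ Set.Icc (1 / 4) Y) := by
    ext z
    simp [box, Complex.mem_reProdIm, abs_le]
  rw [this]
  exact isCompact_Icc.reProdIm isCompact_Icc

theorem tree (δ : ℝ) (hδ : 0 < δ) (K : Set ℂ) (hK : IsCompact K) (hKs : K ⊆ {z : ℂ | 0 < z.im}) :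
    ∃ c : ℝ, 0 < c ∧ ∀ (U : ℂ → ℂ) (T : ℝ), HeckeMaass U T → ∀ z ∈ K, 1 ≤ ‖U z‖ → ∀ J : ℕ, 64 ^ J ≤ c * T →
      ENNReal.ofReal (c * (2 ^ J / ((J : ℝ) + 1) ^ 2) * T ^ (-2 - δ)) ≤
        area (box (4 ^ J / c) ∩ {w | c * (‖U z‖ / 14 ^ J) < ‖U w‖}) := by
  obtain ⟨M, hM, hMK⟩ := compact_box K hK hKs
  have hM0 : 0 < M := by linarith
  obtain ⟨c, hc, hc1, H⟩ := area_tree hM hδ
  refine ⟨min c (1 / (10 * M)), by positivity, fun U T hU z hz h1 J hJ => ?_⟩
  have hT := hU.one_le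
  have hT0 : 0 < T := by linarith
  have hca : min c (1 / (10 * M)) ≤ c := min_le_left _ _
  have hcb : min c (1 / (10 * M)) ≤ 1 / (10 * M) := min_le_right _ _
  have hcp : 0 < min c (1 / (10 * M)) := by positivity
  set c' : ℝ := min c (1 / (10 * M)) with hc'
  obtain ⟨m1, m2, m3⟩ := hMK z hz
  have h2 := H U T hU.form z m1 m2 m3 h1 J (hJ.trans (by gcongr))
  have hm : Measurable fun τ : ℍ => ‖U τ‖ :=
    (hU.smooth.continuousOn.comp_continuous (by fun_prop) fun τ : ℍ => τ.im_pos).measurable.norm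
  have hEm : MeasurableSet (UpperHalfPlane.coe ⁻¹' (box (4 ^ J / c'))) :=
    measurable_coe (box_compact' _).isClosed.measurableSet
  have hset : MeasurableSet {τ : ℍ | c' * (‖U z‖ / 14 ^ J) < ‖U τ‖} := measurableSet_lt measurable_const hm
  have hset2 : MeasurableSet (UpperHalfPlane.coe ⁻¹' (box (4 ^ J / c') ∩ {w | c' * (‖U z‖ / 14 ^ J) < ‖U w‖})) :=
    hEm.inter hset
  rw [area_eq (Set.inter_subset_left.trans (box_sub _)) hset2]
  refine le_trans (ENNReal.ofReal_le_ofReal ?_) (h2.trans (measure_mono ?_))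
  · have : 0 < T ^ (-2 - δ) := by positivity
    gcongr
  · rintro τ ⟨⟨t1, t2, t3⟩, t4⟩
    refine ⟨⟨t1, t2, t3.trans ?_⟩, ?_⟩
    · rw [le_div_iff₀ hcp]
      have h14 : (0 : ℝ) < 4 ^ J := by positivity
      calc 2 * M * 4 ^ J * c' ≤ 2 * M * 4 ^ J * (1 / (10 * M)) := by gcongr
        _ = 4 ^ J / 5 := by field_simp; norm_num
        _ ≤ 4 ^ J := by linarith
    · have t4' : ‖U z‖ / (5 * 14 ^ J) < ‖U τ‖ := t4
      show c' * (‖U z‖ / 14 ^ J) < ‖U τ‖
      refine lt_of_le_of_lt ?_ t4'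
      have h5 : c' ≤ 1 / 5 := by
        refine hcb.trans ?_
        rw [div_le_div_iff₀ (by positivity) (by norm_num)]
        linarith
      calc c' * (‖U z‖ / 14 ^ J) ≤ 1 / 5 * (‖U z‖ / 14 ^ J) := by gcongr
        _ = _ := by field_simp

theorem sparse_of_sup (hS : SupNorm) (κ : ℝ) : AreaSparse κ := by
  intro ε hε
  refine ⟨ε / 16, by positivity, by linarith, ?_⟩
  set K : Set ℂ := Set.Icc (-1 : ℝ) 1 ×ℂ Set.Icc (1 / 8 : ℝ) 1 with hK
  have hKc : IsCompact K := isCompact_Icc.reProdIm isCompact_Icc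
  have hKs : K ⊆ {z : ℂ | 0 < z.im} := by
    intro w hw
    have := hw.2.1
    show 0 < w.im
    have h1 : (1 / 8 : ℝ) ≤ w.im := this
    linarith
  obtain ⟨C, hC⟩ := hS K hKc hKs (ε / 4) (by positivity)
  have htend : Tendsto (fun T : ℝ => T ^ (ε / 2)) atTop atTop := tendsto_rpow_atTop (by positivity)
  obtain ⟨T₀, hT₀⟩ := eventually_atTop.1 (htend.eventually_gt_atTop (16 * max C 1))
  refine ⟨T₀, fun U T hU hT => ?_⟩
  obtain ⟨c, hc, hc7⟩ := hU.form.two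
  have hT1 := hU.one_le
  have hTpos : 0 < T := by linarith
  have he : box (T ^ (ε / 16)) ∩ {z | T ^ ε ≤ ‖U z‖} = ∅ := by
    rw [Set.eq_empty_iff_forall_notMem]
    rintro p ⟨⟨q1, q2, q4⟩, q5⟩
    have q5 : T ^ ε ≤ ‖U p‖ := q5
    obtain ⟨n, hn1, hn2⟩ := exists_nat_pow_near (Real.one_le_rpow hT1 (by positivity : 0 ≤ ε / 16)) (by norm_num : (1 : ℝ) < 2)
    have hA : ∀ w : ℂ, |w.re| ≤ 1 → 1 / 8 ≤ w.im → w.im ≤ 1 → ‖U w‖ ≤ max C 1 * T ^ (ε / 4) := by
      intro w hw1 hw2 hw3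
      have hwK : w ∈ K := ⟨abs_le.1 hw1, ⟨hw2, hw3⟩⟩
      refine (hC U T hU w hwK).trans ?_
      gcongr
      exact le_max_left _ _
    have hg := grow hc hc7 (by positivity) hA (n + 1) p q1 (by linarith) (q4.trans hn2.le)
    have h9 : (9 : ℝ) ^ (n + 1) ≤ 16 * T ^ (ε / 4) := by
      calc (9 : ℝ) ^ (n + 1) ≤ 16 ^ (n + 1) := by gcongr; norm_num
        _ = (2 * 2 ^ n) ^ 4 := by rw [mul_pow, ← pow_mul, mul_comm n 4, pow_mul, pow_succ]; norm_num; ring
        _ ≤ (2 * T ^ (ε / 16)) ^ 4 := by gcongr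
        _ = 16 * T ^ (ε / 4) := by
            rw [mul_pow, ← Real.rpow_natCast (T ^ (ε / 16)) 4, ← Real.rpow_mul hTpos.le]
            norm_num
            ring_nf
    have h10 : ‖U p‖ ≤ 16 * max C 1 * (T ^ (ε / 4) * T ^ (ε / 4)) := by
      calc ‖U p‖ ≤ 9 ^ (n + 1) * (max C 1 * T ^ (ε / 4)) := hg
        _ ≤ 16 * T ^ (ε / 4) * (max C 1 * T ^ (ε / 4)) := by gcongr
        _ = _ := by ring
    rw [← Real.rpow_add hTpos, show ε / 4 + ε / 4 = ε / 2 by ring] at h10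
    have h11 := hT₀ T hT
    have h12 : T ^ ε = T ^ (ε / 2) * T ^ (ε / 2) := by rw [← Real.rpow_add hTpos]; ring_nf
    rw [h12] at q5
    have h13 : 0 < T ^ (ε / 2) := by positivity
    nlinarith [q5.trans h10]
  rw [he]
  unfold area
  rw [Measure.restrict_empty, lintegral_zero_measure]
  exact zero_le

theorem sup_of_sparse {κ : ℝ} (hκ0 : 0 ≤ κ) (hκ : κ < 1 / 2) (hF : AreaSparse κ) : SupNorm := by
  intro K hK hKs ε hε
  obtain ⟨M, hM, hMK⟩ := compact_box K hK hKs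
  obtain ⟨θ, hθ0, hθ, T₀, hT₀⟩ := hF (min (ε / 4) (1 / 4)) (by positivity)
  have hθa : θ ≤ ε / 4 := hθ.trans (min_le_left _ _)
  have hθb : θ ≤ 1 / 4 := hθ.trans (min_le_right _ _)
  set α : ℝ := θ * (κ + 1 / 2) / 2 with hα
  have hα0 : 0 < α := by positivity
  have hα1 : 2 * α < θ := by rw [hα]; nlinarith
  have hα2 : κ * θ < α := by rw [hα]; nlinarith
  set s : ℝ := (α - κ * θ) / 4 with hs
  have hs0 : 0 < s := by rw [hs]; linarith
  have hlog2 : 0 < Real.log 2 := Real.log_pos (by norm_num)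
  set L : ℝ := 1 + α / Real.log 2 / s with hL
  have hL0 : 0 < L := by positivity
  obtain ⟨c, hc, H⟩ := tree s hs0 K hK hKs
  have ev1 : ∀ᶠ T : ℝ in atTop, 1 / c ≤ T ^ (θ - 2 * α) :=
    (tendsto_rpow_atTop (by linarith : 0 < θ - 2 * α)).eventually_ge_atTop _
  have ev2 : ∀ᶠ T : ℝ in atTop, 1 / c ≤ T ^ (1 - 6 * α) :=
    (tendsto_rpow_atTop (by linarith : 0 < 1 - 6 * α)).eventually_ge_atTop _
  have ev3 : ∀ᶠ T : ℝ in atTop, 1 / c ≤ T ^ (ε / 4) :=
    (tendsto_rpow_atTop (by positivity)).eventually_ge_atTop _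
  have ev4 : ∀ᶠ T : ℝ in atTop, 2 * L ^ 2 / c < T ^ s :=
    (tendsto_rpow_atTop hs0).eventually_gt_atTop _
  obtain ⟨T₁, hT₁⟩ := eventually_atTop.1 (ev1.and (ev2.and (ev3.and (ev4.and (eventually_ge_atTop T₀)))))
  refine ⟨max 1 (600 * max T₁ 1 * M), fun U T hU z hz => ?_⟩
  obtain ⟨m1, m2, m3⟩ := hMK z hz
  have hT1 := hU.one_le
  have hTpos : 0 < T := by linarith
  have hTε : 1 ≤ T ^ ε := Real.one_le_rpow hT1 hε.le
  rcases lt_or_ge T T₁ with hlt | hge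
  · calc ‖U z‖ ≤ 600 * T * M := bounded hU hM m2 m3
      _ ≤ 600 * max T₁ 1 * M := by
          have : T ≤ max T₁ 1 := hlt.le.trans (le_max_left _ _)
          gcongr
      _ ≤ max 1 (600 * max T₁ 1 * M) := le_max_right _ _
      _ ≤ max 1 (600 * max T₁ 1 * M) * T ^ ε := by
          have : 0 ≤ max 1 (600 * max T₁ 1 * M) := le_trans zero_le_one (le_max_left _ _)
          nlinarith
  · suffices hsuf : ‖U z‖ ≤ T ^ ε by
      have : 1 ≤ max 1 (600 * max T₁ 1 * M) := le_max_left _ _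
      nlinarith
    by_contra hcon
    push Not at hcon
    obtain ⟨e1, e2, e3, e5, e4⟩ := hT₁ T hge
    rw [div_le_iff₀ hc] at e1 e2 e3
    obtain ⟨J, hJ1, hJ2⟩ := exists_nat_pow_near (Real.one_le_rpow hT1 hα0.le) (by norm_num : (1 : ℝ) < 2)
    have hpw : ∀ (b : ℝ) (m : ℕ), b = 2 ^ m → b ^ J ≤ T ^ (m * α) := by
      intro b m hb
      calc b ^ J = (2 ^ J) ^ m := by rw [hb, ← pow_mul, mul_comm, pow_mul]
        _ ≤ (T ^ α) ^ m := by gcongr
        _ = T ^ (m * α) := by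
            rw [← Real.rpow_natCast (T ^ α) m, ← Real.rpow_mul hTpos.le, mul_comm]
    have h4J : (4 : ℝ) ^ J ≤ T ^ (2 * α) := by exact_mod_cast hpw 4 2 (by norm_num)
    have h16J : (16 : ℝ) ^ J ≤ T ^ (4 * α) := by exact_mod_cast hpw 16 4 (by norm_num)
    have h64J : (64 : ℝ) ^ J ≤ T ^ (6 * α) := by exact_mod_cast hpw 64 6 (by norm_num)
    have hcond : (64 : ℝ) ^ J ≤ c * T := by
      refine h64J.trans ?_
      have h1 : T = T ^ (6 * α) * T ^ (1 - 6 * α) := by rw [← Real.rpow_add hTpos]; ring_nf; exact (Real.rpow_one T).symm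
      have h2 : 0 < T ^ (6 * α) := by positivity
      calc T ^ (6 * α) ≤ T ^ (6 * α) * (T ^ (1 - 6 * α) * c) := by nlinarith
        _ = c * (T ^ (6 * α) * T ^ (1 - 6 * α)) := by ring
        _ = c * T := by rw [← h1]
    have hlow := H U T hU z hz (hTε.trans hcon.le) J hcond
    have hup := hT₀ U T hU e4
    have hsub : area (box (4 ^ J / c) ∩ {w | c * (‖U z‖ / 14 ^ J) < ‖U w‖}) ≤
        area (box (T ^ θ) ∩ {w | T ^ (min (ε / 4) (1 / 4)) ≤ ‖U w‖}) := by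
      apply lintegral_mono_set
      rintro w ⟨⟨q1, q2, q3⟩, q4⟩
      have q4' : c * (‖U z‖ / 14 ^ J) < ‖U w‖ := q4
      refine ⟨⟨q1, q2, q3.trans ?_⟩, ?_⟩
      · rw [div_le_iff₀ hc]
        have h1 : T ^ θ = T ^ (2 * α) * T ^ (θ - 2 * α) := by rw [← Real.rpow_add hTpos]; ring_nf
        have h2 : 0 < T ^ (2 * α) := by positivity
        rw [h1]
        calc (4 : ℝ) ^ J ≤ T ^ (2 * α) := h4J
          _ ≤ T ^ (2 * α) * (T ^ (θ - 2 * α) * c) := by nlinarith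
          _ = _ := by ring
      · show T ^ (min (ε / 4) (1 / 4)) ≤ ‖U w‖
        refine le_trans ?_ q4'.le
        have h14 : (14 : ℝ) ^ J ≤ T ^ (4 * α) := le_trans (by gcongr; norm_num) h16J
        have h14pos : (0 : ℝ) < 14 ^ J := by positivity
        have h3 : T ^ (min (ε / 4) (1 / 4)) ≤ T ^ (ε / 4) :=
          Real.rpow_le_rpow_of_exponent_le hT1 (min_le_left _ _)
        have h4 : T ^ (ε / 4) * T ^ (ε / 4) ≤ ‖U z‖ / 14 ^ J := by
          rw [le_div_iff₀ h14pos]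
          calc T ^ (ε / 4) * T ^ (ε / 4) * 14 ^ J ≤ T ^ (ε / 4) * T ^ (ε / 4) * T ^ (4 * α) := by gcongr
            _ = T ^ (ε / 4 + ε / 4 + 4 * α) := by rw [← Real.rpow_add hTpos, ← Real.rpow_add hTpos]
            _ ≤ T ^ ε := Real.rpow_le_rpow_of_exponent_le hT1 (by linarith)
            _ ≤ ‖U z‖ := hcon.le
        have h5 : 0 < T ^ (ε / 4) := by positivity
        calc T ^ (min (ε / 4) (1 / 4)) ≤ T ^ (ε / 4) := h3
          _ ≤ (T ^ (ε / 4) * c) * T ^ (ε / 4) := by nlinarith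
          _ = c * (T ^ (ε / 4) * T ^ (ε / 4)) := by ring
          _ ≤ c * (‖U z‖ / 14 ^ J) := by gcongr
    have hfin := (ENNReal.ofReal_le_ofReal_iff (by positivity)).1 (hlow.trans (hsub.trans hup))
    have hJlog : (J : ℝ) + 1 ≤ L * T ^ s := by
      have h1 : (J : ℝ) * Real.log 2 ≤ α * Real.log T := by
        have := Real.log_le_log (by positivity) hJ1
        rwa [Real.log_pow, Real.log_rpow hTpos] at this
      have h2 : Real.log T ≤ T ^ s / s := Real.log_le_rpow_div hTpos.le hs0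
      have h3 : (J : ℝ) ≤ α / Real.log 2 / s * T ^ s := by
        have h4 : (J : ℝ) * Real.log 2 ≤ α * (T ^ s / s) := h1.trans (by gcongr)
        calc (J : ℝ) = (J * Real.log 2) / Real.log 2 := by field_simp
          _ ≤ (α * (T ^ s / s)) / Real.log 2 := by gcongr
          _ = _ := by field_simp
      have h5 : 1 ≤ T ^ s := Real.one_le_rpow hT1 hs0.le
      rw [hL, add_mul, one_mul]
      linarith
    have hX : T ^ α / 2 ≤ 2 ^ J := by
      rw [pow_succ] at hJ2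
      linarith
    have hTs : 0 < T ^ s := by positivity
    have hY : c / (2 * L ^ 2) * T ^ (α - 2 * s) ≤ c * (2 ^ J / ((J : ℝ) + 1) ^ 2) := by
      calc c / (2 * L ^ 2) * T ^ (α - 2 * s) = c * ((T ^ α / 2) / (L * T ^ s) ^ 2) := by
            rw [Real.rpow_sub hTpos, show 2 * s = s * (2 : ℕ) by push_cast; ring, Real.rpow_mul hTpos.le,
              Real.rpow_natCast]
            field_simp
        _ ≤ _ := by gcongr
    have hZ : c / (2 * L ^ 2) * T ^ (α - 2 * s) * T ^ (-2 - s) ≤ T ^ (-2 + κ * θ) :=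
      le_trans (by gcongr) hfin
    have e6 : T ^ (α - 2 * s) * T ^ (-2 - s) = T ^ s * T ^ (-2 + κ * θ) := by
      rw [← Real.rpow_add hTpos, ← Real.rpow_add hTpos]
      congr 1
      rw [hs]
      ring
    rw [mul_assoc, e6, ← mul_assoc] at hZ
    have hW : 0 < T ^ (-2 + κ * θ) := by positivity
    have h8 : c / (2 * L ^ 2) * T ^ s ≤ 1 := by
      have : c / (2 * L ^ 2) * T ^ s * T ^ (-2 + κ * θ) ≤ 1 * T ^ (-2 + κ * θ) := by linarith
      exact le_of_mul_le_mul_right this hW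
    rw [div_lt_iff₀ hc] at e5
    rw [div_mul_eq_mul_div, div_le_one (by positivity)] at h8
    linarith

/-- the hand-in -/
theorem result :
    (∀ δ : ℝ, 0 < δ → ∀ K : Set ℂ, IsCompact K → K ⊆ {z : ℂ | 0 < z.im} → ∃ c : ℝ, 0 < c ∧
      ∀ (U : ℂ → ℂ) (T : ℝ), HeckeMaass U T → ∀ z ∈ K, 1 ≤ ‖U z‖ → ∀ J : ℕ, 64 ^ J ≤ c * T →
        ENNReal.ofReal (c * (2 ^ J / ((J : ℝ) + 1) ^ 2) * T ^ (-2 - δ)) ≤
          area (box (4 ^ J / c) ∩ {w | c * (‖U z‖ / 14 ^ J) < ‖U w‖})) ∧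
    (∀ κ : ℝ, 0 ≤ κ → κ < 1 / 2 → (SupNorm ↔ AreaSparse κ)) ∧
    (∀ a : ℝ, 0 < a → ∀ δ : ℝ, 0 < δ → ∀ K : Set ℂ, IsCompact K → K ⊆ {z : ℂ | 0 < z.im} → ∃ c : ℝ, 0 < c ∧
      ∀ (U : ℂ → ℂ) (T : ℝ), HeckeMaass U T → ∀ z ∈ K, 1 ≤ ‖U z‖ →
        ENNReal.ofReal (c * T ^ (-2 - δ)) ≤ area (band a ∩ {w | c * ‖U z‖ < ‖U w‖})) ∧
    ∀ a : ℝ, 0 < a → (SupNorm ↔ AreaSmall a) ∧ (SupNorm ↔ MomentsSmall a) :=
  ⟨tree, fun _ h0 h1 => ⟨fun h => sparse_of_sup h _, sup_of_sparse h0 h1⟩, gap,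
    fun _ ha => ⟨⟨area_of_sup ha, sup_of_area ha⟩,
    ⟨moments_of_sup ha, fun h => sup_of_area ha (area_of_moments ha h)⟩⟩⟩

end Pool.Agent.Results.MP_8fded1_nt.LargeValueArea
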