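import Pool.Agent.Q30.HP.Band

set_option autoImplicit false

/-!
MP_8fded1_nt. For every `a > 0` the sup norms of all Hecke-Maass cusp forms on compact sets are bounded by their sup
norms on the band `a ≤ Im z ≤ 4 a`, with a constant which does not depend on the form. The sup norm conjecture holds if
and only if it holds on one such band, arbitrarily high in the cusp.
-/

open MeasureTheory

namespace Pool.Agent.Results.MP_8fded1_nt.OneBand

/-- `U` is a Hecke-Maass cusp form for `SL(2, ℤ)` with the eigenvalue `1/4 + T²`, `T ≥ 1`, and with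
`∫ |U|² = 1` over the fundamental domain. -/
structure HeckeMaass (U : ℂ → ℂ) (T : ℝ) : Prop where
  one_le : 1 ≤ T
  smooth : ContDiffOn ℝ 2 U {z : ℂ | 0 < z.im}
  invariant : ∀ z : ℂ, 0 < z.im → U (z + 1) = U z ∧ U (-z⁻¹) = U z
  eigen : ∀ z : ℂ, 0 < z.im →
    -((z.im : ℂ)) ^ 2 *
      (deriv (deriv (fun t : ℝ => U (z + (t : ℂ)))) 0 +
        deriv (deriv (fun t : ℝ => U (z + (t : ℂ) * Complex.I))) 0)
      = (1 / 4 + (T : ℂ) ^ 2) * U z
  cuspidal : ∀ y : ℝ, 0 < y →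
    intervalIntegral (fun x : ℝ => U ((x : ℂ) + (y : ℂ) * Complex.I)) 0 1 volume = 0
  normalised : (∫ z in {z : ℂ | 0 < z.im ∧ |z.re| ≤ 1 / 2 ∧ 1 ≤ ‖z‖}, ‖U z‖ ^ 2 / z.im ^ 2) = 1
  hecke : ∀ n : ℕ, 1 ≤ n → ∃ c : ℂ, ∀ z : ℂ, 0 < z.im →
    ∑ d ∈ n.divisors, ∑ b ∈ Finset.range d,
      U ((((n / d : ℕ) : ℂ) * z + (b : ℂ)) / (d : ℂ)) = c * U z

/-- `|U| ≤ C T ^ ε` on the set `E`, for all Hecke-Maass cusp forms and all `ε > 0` -/
def SupNormOn (E : Set ℂ) : Prop :=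
  ∀ ε : ℝ, 0 < ε → ∃ C : ℝ, ∀ (U : ℂ → ℂ) (T : ℝ), HeckeMaass U T → ∀ z ∈ E, ‖U z‖ ≤ C * T ^ ε

/-- the sup norm conjecture (Q1) -/
def SupNorm : Prop := ∀ K : Set ℂ, IsCompact K → K ⊆ {z : ℂ | 0 < z.im} → SupNormOn K

/-- the band `|Re z| ≤ 1/2`, `a ≤ Im z ≤ 4 a`, of hyperbolic area `3 / (4 a)` -/
def band (a : ℝ) : Set ℂ := {z : ℂ | |z.re| ≤ 1 / 2 ∧ a ≤ z.im ∧ z.im ≤ 4 * a}

open Pool.Agent.Q30.HP

lemma HeckeMaass.form {U : ℂ → ℂ} {T : ℝ} (h : HeckeMaass U T) : Form U T where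
  one_le := h.one_le
  smooth := h.smooth
  inv := h.invariant
  eigen := fun z hz => h.eigen z hz
  mass := h.normalised
  hecke := h.hecke

theorem domination (a : ℝ) (ha : 0 < a) (K : Set ℂ) (hK : IsCompact K) (hKs : K ⊆ {z : ℂ | 0 < z.im}) :
    ∃ C : ℝ, ∀ (U : ℂ → ℂ) (T B : ℝ), HeckeMaass U T → (∀ z ∈ band a, ‖U z‖ ≤ B) → ∀ z ∈ K, ‖U z‖ ≤ C * B := by
  obtain ⟨M, hM, hMK⟩ : ∃ M : ℝ, 1 ≤ M ∧ ∀ z ∈ K, 1 / M ≤ z.im ∧ z.im ≤ M := by
    rcases K.eq_empty_or_nonempty with rfl | hne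
    · exact ⟨1, le_refl _, by simp⟩
    · obtain ⟨R, hR⟩ := hK.isBounded.exists_norm_le
      obtain ⟨w, hw, hmin⟩ := hK.exists_isMinOn hne Complex.continuous_im.continuousOn
      have hw0 : 0 < w.im := hKs hw
      refine ⟨max 1 (max R (1 / w.im)), le_max_left _ _, fun z hz => ⟨?_, ?_⟩⟩
      · have h1 : w.im ≤ z.im := hmin hz
        have h2 : 1 / w.im ≤ max 1 (max R (1 / w.im)) := (le_max_right _ _).trans (le_max_right _ _)
        refine le_trans ?_ h1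
        rw [div_le_iff₀ (lt_of_lt_of_le one_pos (le_max_left _ _))]
        rw [div_le_iff₀ hw0] at h2
        linarith
      · exact (Complex.im_le_norm z).trans ((hR z hz).trans ((le_max_left _ _).trans (le_max_right _ _)))
  obtain ⟨C, hC, h⟩ := Pool.Agent.Q30.HP.band ha hM
  refine ⟨C, fun U T B hU hB z hz => ?_⟩
  have hmem : (a : ℂ) * Complex.I ∈ band a := by
    unfold band
    simp
    linarith
  have hB0 : 0 ≤ B := (norm_nonneg _).trans (hB _ hmem)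
  exact h U T hU.form B hB0 (fun z h1 h2 h3 => hB z ⟨h1, h2, h3⟩) z (hMK z hz).1 (hMK z hz).2

lemma band_compact (a : ℝ) : IsCompact (band a) := by
  have : band a = (Set.Icc (-(1 / 2)) (1 / 2) ×ℂ Set.Icc a (4 * a)) := by
    ext z
    constructor
    · rintro ⟨h1, h2, h3⟩
      exact ⟨abs_le.1 h1, h2, h3⟩
    · rintro ⟨h1, h2, h3⟩
      exact ⟨abs_le.2 h1, h2, h3⟩
  rw [this]
  exact isCompact_Icc.reProdIm isCompact_Icc

/-- **Theorem.** Let `a > 0`. (1) For every compact subset `K` of the upper half plane there is `C` with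
`sup_K |U| ≤ C sup |U|`, the second sup over the band `a ≤ Im z ≤ 4 a`, for all Hecke-Maass cusp forms `U`.
(2) The sup norm conjecture is equivalent to the sup norm bound on the band. -/
theorem result (a : ℝ) (ha : 0 < a) :
    (∀ K : Set ℂ, IsCompact K → K ⊆ {z : ℂ | 0 < z.im} → ∃ C : ℝ, ∀ (U : ℂ → ℂ) (T B : ℝ), HeckeMaass U T →
      (∀ z ∈ band a, ‖U z‖ ≤ B) → ∀ z ∈ K, ‖U z‖ ≤ C * B) ∧
    (SupNorm ↔ SupNormOn (band a)) := by
  refine ⟨domination a ha, fun hS => ?_, fun hE K hK hKs ε hε => ?_⟩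
  · exact hS _ (band_compact a) fun z hz => lt_of_lt_of_le ha hz.2.1
  · obtain ⟨C1, hC1⟩ := hE ε hε
    obtain ⟨C, hC⟩ := domination a ha K hK hKs
    refine ⟨C * C1, fun U T hU z hz => ?_⟩
    rw [mul_assoc]
    exact hC U T _ hU (hC1 U T hU) z hz

end Pool.Agent.Results.MP_8fded1_nt.OneBand
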