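import Pool.Agent.Q30.HP.Loc

set_option autoImplicit false

/-!
MP_8fded1_nt. One large value of a Hecke-Maass cusp form on a compact set forces many large values which are far apart.
Hence the sup norm conjecture holds if and only if the well spaced large values are few.
-/

open MeasureTheory Filter Topology

namespace Pool.Agent.Results.MP_8fded1_nt.PeaksNotIsolated

/-- `U` is a Hecke-Maass cusp form for `SL(2, ℤ)` with the eigenvalue `1/4 + T²`, `T ≥ 1`, and with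
`∫ |U|² = 1` over the fundamental domain. -/
structure HeckeMaass (U : ℂ → ℂ) (T : ℝ) : Prop where
  one_le : 1 ≤ T
  smooth : ContDiffOn ℝ 2 U {z : ℂ | 0 < z.im}
  invariant : ∀ z : ℂ, 0 < z.im → U (z + 1) = U z ∧ U (-z⁻¹) = U z
  eigen : ∀ z : ℂ, 0 < z.im →
    -((z.im : ℂ)) ^ 2 *
      (deriv (deriv (fun t : ℝ => U (z + (t : ℂ)))) 0 +
        deriv (deriv (fun t : ℝ => U (z + (t : ℂ) * Complex.I))) 0)
      = (1 / 4 + (T : ℂ) ^ 2) * U z
  cuspidal : ∀ y : ℝ, 0 < y →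
    intervalIntegral (fun x : ℝ => U ((x : ℂ) + (y : ℂ) * Complex.I)) 0 1 volume = 0
  normalised : (∫ z in {z : ℂ | 0 < z.im ∧ |z.re| ≤ 1 / 2 ∧ 1 ≤ ‖z‖}, ‖U z‖ ^ 2 / z.im ^ 2) = 1
  hecke : ∀ n : ℕ, 1 ≤ n → ∃ c : ℂ, ∀ z : ℂ, 0 < z.im →
    ∑ d ∈ n.divisors, ∑ b ∈ Finset.range d,
      U ((((n / d : ℕ) : ℂ) * z + (b : ℂ)) / (d : ℂ)) = c * U z

/-- the sup norm conjecture (Q1) -/
def SupNorm : Prop :=
  ∀ K : Set ℂ, IsCompact K → K ⊆ {z : ℂ | 0 < z.im} → ∀ ε : ℝ, 0 < ε → ∃ C : ℝ,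
    ∀ (U : ℂ → ℂ) (T : ℝ), HeckeMaass U T → ∀ z ∈ K, ‖U z‖ ≤ C * T ^ ε

/-- There are at most `T ^ (κ θ)` large values `≥ T ^ ε` at points of the fundamental domain below the height `T ^ θ`
which are `T ^ (-θ)`-separated. -/
def FewPeaks (κ : ℝ) : Prop :=
  ∀ ε : ℝ, 0 < ε → ∃ θ : ℝ, 0 < θ ∧ θ ≤ ε ∧ ∃ T₀ : ℝ, ∀ (U : ℂ → ℂ) (T : ℝ), HeckeMaass U T → T₀ ≤ T →
    ∀ P : Finset ℂ,
      (∀ p ∈ P, |p.re| ≤ 1 / 2 ∧ 1 ≤ ‖p‖ ∧ 0 < p.im ∧ p.im ≤ T ^ θ ∧ T ^ ε ≤ ‖U p‖) →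
      (∀ p ∈ P, ∀ q ∈ P, p ≠ q → T ^ (-θ) ≤ ‖p - q‖) →
      (P.card : ℝ) ≤ T ^ (κ * θ)

open Pool.Agent.Q30.HP

lemma HeckeMaass.two {U : ℂ → ℂ} {T : ℝ} (h : HeckeMaass U T) : ∃ c : ℂ, HeckeTwo U c ∧ ‖c‖ ≤ 7 :=
  two_le h.invariant h.smooth.continuousOn h.normalised (h.hecke 2 (by norm_num))

/-- many peaks -/
theorem many {U : ℂ → ℂ} {T : ℝ} (h : HeckeMaass U T) {M : ℝ} (hM : 1 ≤ M) {z : ℂ} (h1 : 1 / M ≤ z.im)
    (h2 : z.im ≤ M) (h3 : |z.re| ≤ M) (J : ℕ) :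
    ∃ P : Finset ℂ, 2 ^ J ≤ 256 * (J + 1) ^ 2 * P.card ∧
      (∀ p ∈ P, |p.re| ≤ 1 / 2 ∧ 1 ≤ ‖p‖ ∧ 0 < p.im ∧ p.im ≤ M * 4 ^ J ∧ ‖U z‖ / 14 ^ J ≤ ‖U p‖) ∧
      ∀ p ∈ P, ∀ q ∈ P, p ≠ q → 1 / (32 * M ^ 3 * 16 ^ J) ≤ ‖p - q‖ := by
  obtain ⟨c, hc, hc7⟩ := h.two
  have hz : 0 < z.im := lt_of_lt_of_le (by positivity) h1
  have := peaks h.invariant hc (by norm_num : (2 : ℝ) ≤ 7) hc7 hz hM h1 h2 h3 J
  norm_num at this
  simpa using this

/-- the bound for bounded `T` -/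
lemma bounded {U : ℂ → ℂ} {T : ℝ} (h : HeckeMaass U T) {M : ℝ} (hM : 1 ≤ M) {z : ℂ} (h1 : 1 / M ≤ z.im)
    (h2 : z.im ≤ M) (h3 : |z.re| ≤ M) : ‖U z‖ ≤ 600 * T * M := by
  obtain ⟨P, hP1, hP2, -⟩ := many h hM h1 h2 h3 0
  have hne : P.Nonempty := by
    rw [Finset.nonempty_iff_ne_empty]
    rintro rfl
    simp at hP1
  obtain ⟨p, hp⟩ := hne
  obtain ⟨q1, q2, q3, q4, q5⟩ := hP2 p hp
  have hmass := mass_eq h.smooth.continuousOn h.normalised
  have hloc := local_bound h.one_le h.invariant h.smooth (fun z hz => h.eigen z hz) hmass (z := p) ⟨q3, q1, q2⟩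
  have hT := h.one_le
  simp only [pow_zero, mul_one, div_one] at q4 q5
  calc ‖U z‖ ≤ ‖U p‖ := q5
    _ ≤ 600 * T * p.im := hloc
    _ ≤ 600 * T * M := by gcongr

/-- the sup norm conjecture implies the absence of large values even slightly into the cusp -/
theorem few_of_sup (hS : SupNorm) (κ : ℝ) : FewPeaks κ := by
  intro ε hε
  refine ⟨ε / 16, by positivity, by linarith, ?_⟩
  set K : Set ℂ := Set.Icc (-1 : ℝ) 1 ×ℂ Set.Icc (1 / 8 : ℝ) 1 with hK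
  have hKc : IsCompact K := isCompact_Icc.reProdIm isCompact_Icc
  have hKs : K ⊆ {z : ℂ | 0 < z.im} := by
    intro w hw
    have := hw.2.1
    show 0 < w.im
    have h1 : (1 / 8 : ℝ) ≤ w.im := this
    linarith
  obtain ⟨C, hC⟩ := hS K hKc hKs (ε / 4) (by positivity)
  have htend : Tendsto (fun T : ℝ => T ^ (ε / 2)) atTop atTop := tendsto_rpow_atTop (by positivity)
  obtain ⟨T₀, hT₀⟩ := eventually_atTop.1 (htend.eventually_gt_atTop (16 * max C 1))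
  refine ⟨T₀, fun U T hU hT P hP _ => ?_⟩
  obtain ⟨c, hc, hc7⟩ := hU.two
  have hT1 := hU.one_le
  have hTpos : 0 < T := by linarith
  have hPe : P = ∅ := by
    rw [Finset.eq_empty_iff_forall_notMem]
    intro p hp
    obtain ⟨q1, q2, q3, q4, q5⟩ := hP p hp
    obtain ⟨n, hn1, hn2⟩ := exists_nat_pow_near (Real.one_le_rpow hT1 (by positivity : 0 ≤ ε / 16)) (by norm_num : (1 : ℝ) < 2)
    have hp8 : 1 / 8 ≤ p.im := by
      have h4 : 1 ≤ ‖p‖ ^ 2 := by nlinarith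
      rw [← Complex.normSq_eq_norm_sq, Complex.normSq_apply] at h4
      rw [abs_le] at q1
      nlinarith
    have hA : ∀ w : ℂ, |w.re| ≤ 1 → 1 / 8 ≤ w.im → w.im ≤ 1 → ‖U w‖ ≤ max C 1 * T ^ (ε / 4) := by
      intro w hw1 hw2 hw3
      have hwK : w ∈ K := ⟨abs_le.1 hw1, ⟨hw2, hw3⟩⟩
      refine (hC U T hU w hwK).trans ?_
      gcongr
      exact le_max_left _ _
    have hg := grow hc hc7 (by positivity) hA (n + 1) p (by linarith) hp8 (q4.trans hn2.le)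
    have h9 : (9 : ℝ) ^ (n + 1) ≤ 16 * T ^ (ε / 4) := by
      calc (9 : ℝ) ^ (n + 1) ≤ 16 ^ (n + 1) := by gcongr; norm_num
        _ = (2 * 2 ^ n) ^ 4 := by rw [mul_pow, ← pow_mul, mul_comm n 4, pow_mul, pow_succ]; norm_num; ring
        _ ≤ (2 * T ^ (ε / 16)) ^ 4 := by gcongr
        _ = 16 * T ^ (ε / 4) := by
            rw [mul_pow, ← Real.rpow_natCast (T ^ (ε / 16)) 4, ← Real.rpow_mul hTpos.le]
            norm_num
            ring_nf
    have h10 : ‖U p‖ ≤ 16 * max C 1 * (T ^ (ε / 4) * T ^ (ε / 4)) := by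
      calc ‖U p‖ ≤ 9 ^ (n + 1) * (max C 1 * T ^ (ε / 4)) := hg
        _ ≤ 16 * T ^ (ε / 4) * (max C 1 * T ^ (ε / 4)) := by gcongr
        _ = _ := by ring
    rw [← Real.rpow_add hTpos, show ε / 4 + ε / 4 = ε / 2 by ring] at h10
    have h11 := hT₀ T hT
    have h12 : T ^ ε = T ^ (ε / 2) * T ^ (ε / 2) := by rw [← Real.rpow_add hTpos]; ring_nf
    rw [h12] at q5
    have h13 : 0 < T ^ (ε / 2) := by positivity
    nlinarith [q5.trans h10]
  rw [hPe, Finset.card_empty, Nat.cast_zero]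
  positivity

/-- few peaks imply the sup norm conjecture -/
theorem sup_of_few {κ : ℝ} (hκ0 : 0 ≤ κ) (hκ : κ < 1 / 4) (hF : FewPeaks κ) : SupNorm := by
  intro K hK hKs ε hε
  -- the constant `M`
  obtain ⟨M, hM, hMK⟩ : ∃ M : ℝ, 1 ≤ M ∧ ∀ z ∈ K, 1 / M ≤ z.im ∧ z.im ≤ M ∧ |z.re| ≤ M := by
    rcases K.eq_empty_or_nonempty with rfl | hne
    · exact ⟨1, le_refl _, by simp⟩
    · obtain ⟨R, hR⟩ := hK.isBounded.exists_norm_le
      obtain ⟨w, hw, hmin⟩ := hK.exists_isMinOn hne Complex.continuous_im.continuousOn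
      have hw0 : 0 < w.im := hKs hw
      refine ⟨max 1 (max R (1 / w.im)), le_max_left _ _, fun z hz => ⟨?_, ?_, ?_⟩⟩
      · have h1 : w.im ≤ z.im := hmin hz
        have h2 : 1 / w.im ≤ max 1 (max R (1 / w.im)) := (le_max_right _ _).trans (le_max_right _ _)
        refine le_trans ?_ h1
        rw [div_le_iff₀ (lt_of_lt_of_le one_pos (le_max_left _ _))]
        rw [div_le_iff₀ hw0] at h2
        linarith
      · exact (Complex.im_le_norm z).trans ((hR z hz).trans ((le_max_left _ _).trans (le_max_right _ _)))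
      · exact (Complex.abs_re_le_norm z).trans ((hR z hz).trans ((le_max_left _ _).trans (le_max_right _ _)))
  obtain ⟨θ, hθ0, hθ, T₀, hT₀⟩ := hF (ε / 2) (by positivity)
  set α : ℝ := θ * (κ + 1 / 4) / 2 with hα
  have hα0 : 0 < α := by positivity
  have hα1 : 4 * α < θ := by rw [hα]; nlinarith
  have hα2 : κ * θ < α := by rw [hα]; nlinarith
  set s : ℝ := (α - κ * θ) / 4 with hs
  have hs0 : 0 < s := by rw [hs]; linarith
  set L : ℝ := 1 + α / Real.log 2 / s with hL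
  have hlog2 : 0 < Real.log 2 := Real.log_pos (by norm_num)
  -- large `T`
  have ev1 : ∀ᶠ T : ℝ in atTop, M ≤ T ^ (θ - 2 * α) :=
    (tendsto_rpow_atTop (by linarith : 0 < θ - 2 * α)).eventually_ge_atTop M
  have ev2 : ∀ᶠ T : ℝ in atTop, 32 * M ^ 3 ≤ T ^ (θ - 4 * α) :=
    (tendsto_rpow_atTop (by linarith : 0 < θ - 4 * α)).eventually_ge_atTop _
  have ev3 : ∀ᶠ T : ℝ in atTop, 512 * L ^ 2 < T ^ (2 * s) :=
    (tendsto_rpow_atTop (by linarith : 0 < 2 * s)).eventually_gt_atTop _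
  obtain ⟨T₁, hT₁⟩ := eventually_atTop.1 (ev1.and (ev2.and (ev3.and (eventually_ge_atTop T₀))))
  refine ⟨max 1 (600 * max T₁ 1 * M), fun U T hU z hz => ?_⟩
  obtain ⟨m1, m2, m3⟩ := hMK z hz
  have hT1 := hU.one_le
  have hTpos : 0 < T := by linarith
  have hTε : 1 ≤ T ^ ε := Real.one_le_rpow hT1 hε.le
  rcases lt_or_ge T T₁ with hlt | hge
  · calc ‖U z‖ ≤ 600 * T * M := bounded hU hM m1 m2 m3
      _ ≤ 600 * max T₁ 1 * M := by
          have : T ≤ max T₁ 1 := hlt.le.trans (le_max_left _ _)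
          gcongr
      _ ≤ max 1 (600 * max T₁ 1 * M) := le_max_right _ _
      _ ≤ max 1 (600 * max T₁ 1 * M) * T ^ ε := by
          have : 0 ≤ max 1 (600 * max T₁ 1 * M) := le_trans zero_le_one (le_max_left _ _)
          nlinarith
  · suffices hsuf : ‖U z‖ ≤ T ^ ε by
      have : 1 ≤ max 1 (600 * max T₁ 1 * M) := le_max_left _ _
      nlinarith
    by_contra hcon
    push Not at hcon
    obtain ⟨e1, e2, e3, e4⟩ := hT₁ T hge
    obtain ⟨J, hJ1, hJ2⟩ := exists_nat_pow_near (Real.one_le_rpow hT1 hα0.le) (by norm_num : (1 : ℝ) < 2)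
    obtain ⟨P, hP1, hP2, hP3⟩ := many hU hM m1 m2 m3 J
    have h4J : (4 : ℝ) ^ J ≤ T ^ (2 * α) := by
      calc (4 : ℝ) ^ J = (2 ^ J) ^ 2 := by rw [← pow_mul, mul_comm, pow_mul]; norm_num
        _ ≤ (T ^ α) ^ 2 := by gcongr
        _ = T ^ (2 * α) := by
            rw [← Real.rpow_natCast (T ^ α) 2, ← Real.rpow_mul hTpos.le]
            congr 1
            push_cast
            ring
    have h16J : (16 : ℝ) ^ J ≤ T ^ (4 * α) := by
      calc (16 : ℝ) ^ J = (2 ^ J) ^ 4 := by rw [← pow_mul, mul_comm, pow_mul]; norm_num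
        _ ≤ (T ^ α) ^ 4 := by gcongr
        _ = T ^ (4 * α) := by
            rw [← Real.rpow_natCast (T ^ α) 4, ← Real.rpow_mul hTpos.le]
            congr 1
            push_cast
            ring
    have hcard := hT₀ U T hU e4 P (by
      intro p hp
      obtain ⟨q1, q2, q3, q4, q5⟩ := hP2 p hp
      refine ⟨q1, q2, q3, ?_, ?_⟩
      · calc p.im ≤ M * 4 ^ J := q4
          _ ≤ T ^ (θ - 2 * α) * T ^ (2 * α) := by gcongr
          _ = T ^ θ := by rw [← Real.rpow_add hTpos]; congr 1; ring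
      · refine le_trans ?_ q5
        have h14 : (14 : ℝ) ^ J ≤ T ^ (4 * α) := le_trans (by gcongr; norm_num) h16J
        have h14pos : (0 : ℝ) < 14 ^ J := by positivity
        rw [le_div_iff₀ h14pos]
        calc T ^ (ε / 2) * 14 ^ J ≤ T ^ (ε / 2) * T ^ (4 * α) := by gcongr
          _ = T ^ (ε / 2 + 4 * α) := by rw [← Real.rpow_add hTpos]
          _ ≤ T ^ ε := Real.rpow_le_rpow_of_exponent_le hT1 (by linarith)
          _ ≤ ‖U z‖ := hcon.le) (by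
      intro p hp q hq hpq
      refine le_trans ?_ (hP3 p hp q hq hpq)
      rw [Real.rpow_neg hTpos.le, ← one_div]
      apply one_div_le_one_div_of_le (by positivity)
      calc 32 * M ^ 3 * 16 ^ J ≤ T ^ (θ - 4 * α) * T ^ (4 * α) := by gcongr
        _ = T ^ θ := by rw [← Real.rpow_add hTpos]; congr 1; ring)
    -- counting
    have hJlog : (J : ℝ) + 1 ≤ L * T ^ s := by
      have h1 : (J : ℝ) * Real.log 2 ≤ α * Real.log T := by
        have := Real.log_le_log (by positivity) hJ1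
        rwa [Real.log_pow, Real.log_rpow hTpos] at this
      have h2 : Real.log T ≤ T ^ s / s := Real.log_le_rpow_div hTpos.le hs0
      have h3 : (J : ℝ) ≤ α / Real.log 2 / s * T ^ s := by
        have h4 : (J : ℝ) * Real.log 2 ≤ α * (T ^ s / s) := h1.trans (by gcongr)
        calc (J : ℝ) = (J * Real.log 2) / Real.log 2 := by field_simp
          _ ≤ (α * (T ^ s / s)) / Real.log 2 := by gcongr
          _ = _ := by field_simp
      have h5 : 1 ≤ T ^ s := Real.one_le_rpow hT1 hs0.le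
      rw [hL, add_mul, one_mul]
      linarith
    have hP1' : (2 : ℝ) ^ J ≤ 256 * ((J : ℝ) + 1) ^ 2 * P.card := by exact_mod_cast hP1
    have hfin : T ^ α < T ^ α := by
      calc T ^ α < 2 ^ (J + 1) := hJ2
        _ = 2 * 2 ^ J := by rw [pow_succ]; ring
        _ ≤ 2 * (256 * ((J : ℝ) + 1) ^ 2 * P.card) := by gcongr
        _ ≤ 2 * (256 * (L * T ^ s) ^ 2 * T ^ (κ * θ)) := by gcongr
        _ = (512 * L ^ 2) * (T ^ s) ^ 2 * T ^ (κ * θ) := by ring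
        _ ≤ T ^ (2 * s) * (T ^ s) ^ 2 * T ^ (κ * θ) := by gcongr
        _ = T ^ α := by
            rw [← Real.rpow_natCast (T ^ s) 2, ← Real.rpow_mul hTpos.le, ← Real.rpow_add hTpos,
              ← Real.rpow_add hTpos]
            congr 1
            push_cast
            rw [hs]
            ring
    exact lt_irrefl _ hfin

/-- **Theorem.** (1) Let `U` be a Hecke-Maass cusp form, `M ≥ 1`, and `z` a point with `1/M ≤ Im z ≤ M`, `|Re z| ≤ M`.
For every `J` there are at least `2 ^ J / (256 (J + 1) ^ 2)` points of the fundamental domain, below the height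
`M 4 ^ J`, at which `|U| ≥ |U z| / 14 ^ J`, and whose mutual distances are at least `1 / (32 M ^ 3 16 ^ J)`.
(2) For every `0 ≤ κ < 1/4` the sup norm conjecture is equivalent to `FewPeaks κ`. -/
theorem result :
    (∀ (U : ℂ → ℂ) (T : ℝ), HeckeMaass U T → ∀ M : ℝ, 1 ≤ M → ∀ z : ℂ, 1 / M ≤ z.im → z.im ≤ M → |z.re| ≤ M →
      ∀ J : ℕ, ∃ P : Finset ℂ, 2 ^ J ≤ 256 * (J + 1) ^ 2 * P.card ∧
        (∀ p ∈ P, |p.re| ≤ 1 / 2 ∧ 1 ≤ ‖p‖ ∧ 0 < p.im ∧ p.im ≤ M * 4 ^ J ∧ ‖U z‖ / 14 ^ J ≤ ‖U p‖) ∧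
        ∀ p ∈ P, ∀ q ∈ P, p ≠ q → 1 / (32 * M ^ 3 * 16 ^ J) ≤ ‖p - q‖) ∧
    ∀ κ : ℝ, 0 ≤ κ → κ < 1 / 4 → (SupNorm ↔ FewPeaks κ) :=
  ⟨fun _ _ h _ hM _ h1 h2 h3 J => many h hM h1 h2 h3 J,
    fun _ h0 h1 => ⟨fun h => few_of_sup h _, sup_of_few h0 h1⟩⟩

end Pool.Agent.Results.MP_8fded1_nt.PeaksNotIsolated
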